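import Pool.Agent.H48.RN.Stmts2

/-!
CN1: the number of points, for one `M`.
-/

set_option autoImplicit false
set_option linter.unusedSectionVars false

namespace Pool.RN

open Polynomial

theorem CN1_cardFx (F k : Type) [Field F] [Fintype F] [Field k] [Algebra F k] [IsAlgClosed k]
    {j : ℕ} (hj : 1 ≤ j) : (Fx F k j).card = Fintype.card F ^ j := by
  classical
  obtain ⟨p, hp⟩ := CharP.exists F
  haveI : CharP k p := charP_of_injective_algebraMap (algebraMap F k).injective p
  obtain ⟨n, hpp, hn⟩ := FiniteField.card F p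
  have hdvd : p ∣ Fintype.card F ^ j := by
    refine dvd_pow ?_ (by omega)
    rw [hn]
    exact dvd_pow_self p n.ne_zero
  have hq : 1 < Fintype.card F ^ j := Nat.one_lt_pow (by omega) Fintype.one_lt_card
  have hsep : (X ^ (Fintype.card F ^ j) - X : k[X]).Separable := galois_poly_separable p _ hdvd
  unfold Fx
  rw [Multiset.toFinset_card_of_nodup (nodup_roots hsep),
    ← (IsAlgClosed.splits (X ^ (Fintype.card F ^ j) - X : k[X])).natDegree_eq_card_roots]
  exact FiniteField.X_pow_card_sub_X_natDegree_eq k hq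

theorem CN1_unit {F : Type} [Field F] {M g : F[X]} (h : IsCoprime g M) :
    IsUnit (AdjoinRoot.mk M g) := by
  obtain ⟨a, b, hab⟩ := h
  refine IsUnit.of_mul_eq_one (AdjoinRoot.mk M a) ?_
  rw [← map_mul, ← map_one (AdjoinRoot.mk M), AdjoinRoot.mk_eq_mk]
  refine ⟨-b, ?_⟩
  rw [← hab]
  ring

theorem CN1_coprime {F : Type} [Field F] {M c : F[X]} (h : IsUnit (AdjoinRoot.mk M c)) :
    IsCoprime c M := by
  obtain ⟨u, hu⟩ := h.exists_right_inv
  obtain ⟨d, rfl⟩ := AdjoinRoot.mk_surjective u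
  rw [← map_mul, ← map_one (AdjoinRoot.mk M), AdjoinRoot.mk_eq_mk] at hu
  obtain ⟨e, he⟩ := hu
  refine ⟨d, -e, ?_⟩
  linear_combination he

theorem CN1_nm {F k : Type} [Field F] [Fintype F] [Field k] [Algebra F k]
    [Algebra.IsAlgebraic F k] {M : F[X]} {x : k} (hx : aeval x M ≠ 0) (j : ℕ) :
    IsUnit (AdjoinRoot.mk M (nm F x j)) := by
  apply CN1_unit
  unfold nm
  apply IsCoprime.pow_left
  have h1 : Irreducible (minpoly F x) := minpoly.irreducible (Algebra.IsIntegral.isIntegral x)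
  rcases EuclideanDomain.dvd_or_coprime (minpoly F x) M h1 with h | h
  · exfalso
    apply hx
    obtain ⟨e, he⟩ := h
    rw [he, map_mul, minpoly.aeval, zero_mul]
  · exact h

theorem CN1_units_card {F k : Type} [Field F] [Fintype F] [Field k] [Algebra F k]
    (M : F[X]) (Y : (EE k)[X]) [Fintype (AdjoinRoot M)] [DecidableEq (AdjoinRoot M)]
    [DecidablePred (fun a : AdjoinRoot M => IsUnit a)] (hM : M.Monic)
    (hIRR : S_IRR M Y) :
    (Finset.univ.filter fun a : AdjoinRoot M => IsUnit a).card = (HH M Y).card := by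
  symm
  apply Finset.card_bij (fun g _ => AdjoinRoot.mk M g)
  · intro g hg
    exact Finset.mem_filter.2 ⟨Finset.mem_univ _, CN1_unit (mem_HH.1 hg).2.1⟩
  · intro g hg g' hg' h
    rw [AdjoinRoot.mk_eq_mk] at h
    have h1 := (mem_HH.1 hg).1
    have h2 := (mem_HH.1 hg').1
    by_contra hne
    exact not_lt_of_ge (degree_le_of_dvd h (sub_ne_zero.2 hne))
      ((degree_sub_le _ _).trans_lt (max_lt h1 h2))
  · intro a ha
    obtain ⟨c, rfl⟩ := AdjoinRoot.mk_surjective a
    obtain ⟨g, hg, h⟩ := hIRR c (CN1_coprime (Finset.mem_filter.1 ha).2)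
    exact ⟨g, hg, (AdjoinRoot.mk_eq_mk.2 h).symm⟩

theorem CN1_natcard {R : Type} [CommRing R] [Fintype R]
    [DecidablePred (fun a : R => IsUnit a)] :
    Nat.card Rˣ = (Finset.univ.filter fun a : R => IsUnit a).card := by
  rw [← Fintype.card_subtype, ← Nat.card_eq_fintype_card]
  apply Nat.card_congr
  exact Equiv.ofBijective (fun u : Rˣ => (⟨u, u.isUnit⟩ : {a : R // IsUnit a}))
    ⟨fun u v h => Units.ext (congrArg Subtype.val h), fun a => ⟨a.2.unit, Subtype.ext rfl⟩⟩

theorem CN1_sum {F k : Type} [Field F] [Fintype F] [Field k] [Algebra F k] [IsAlgClosed k]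
    [Algebra.IsAlgebraic F k] (M : F[X]) [Fintype (AdjoinRoot M)]
    [DecidablePred (fun a : AdjoinRoot M => IsUnit a)] (hM : M.Monic) {j : ℕ} (hj : 1 ≤ j) :
    Fintype.card F ^ j ≤
      (∑ u ∈ Finset.univ.filter (fun a : AdjoinRoot M => IsUnit a), NN M k j u) + M.natDegree := by
  classical
  have h1 : (∑ u ∈ Finset.univ.filter (fun a : AdjoinRoot M => IsUnit a), NN M k j u)
      = ((Fx F k j).filter fun x => IsUnit (AdjoinRoot.mk M (nm F x j))).card := by
    rw [Finset.card_eq_sum_card_fiberwise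
      (f := fun x => AdjoinRoot.mk M (nm F x j))
      (t := Finset.univ.filter (fun a : AdjoinRoot M => IsUnit a))]
    · refine Finset.sum_congr rfl fun u hu => ?_
      unfold NN
      congr 1
      ext x
      simp only [Finset.mem_filter]
      constructor
      · rintro ⟨h2, h3⟩
        exact ⟨⟨h2, by rw [h3]; exact (Finset.mem_filter.1 hu).2⟩, h3⟩
      · rintro ⟨⟨h2, _⟩, h3⟩
        exact ⟨h2, h3⟩
    · intro x hx
      exact Finset.mem_coe.2 (Finset.mem_filter.2 ⟨Finset.mem_univ _, (Finset.mem_filter.1 hx).2⟩)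
  rw [h1, ← CN1_cardFx F k hj,
    ← Finset.card_filter_add_card_filter_not (s := Fx F k j)
      (fun x => IsUnit (AdjoinRoot.mk M (nm F x j)))]
  apply Nat.add_le_add_left
  have hM0 : M.map (algebraMap F k) ≠ 0 := (hM.map _).ne_zero
  have h2 : ((Fx F k j).filter fun x => ¬ IsUnit (AdjoinRoot.mk M (nm F x j)))
      ⊆ (M.map (algebraMap F k)).roots.toFinset := by
    intro x hx
    rw [Multiset.mem_toFinset, mem_roots hM0, IsRoot.def, eval_map_algebraMap]
    by_contra h3
    exact (Finset.mem_filter.1 hx).2 (CN1_nm h3 j)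
  calc _ ≤ (M.map (algebraMap F k)).roots.toFinset.card := Finset.card_le_card h2
    _ ≤ (M.map (algebraMap F k)).roots.card := Multiset.toFinset_card_le _
    _ ≤ (M.map (algebraMap F k)).natDegree := card_roots' _
    _ = M.natDegree := natDegree_map _

theorem s_CN1 {F k : Type} [Field F] [Fintype F] [Field k] [Algebra F k] [IsAlgClosed k]
    [Algebra.IsAlgebraic F k] (M : F[X]) (Y : (EE k)[X]) (hM : M.Monic) (hm : 1 ≤ M.natDegree)
    (hY : Good M Y) (hSTP : S_STP M Y) (hIRR : S_IRR M Y) (hGRP : S_GRP M Y)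
    (hNMI : S_NMI F k) (hDIS : S_DIS F) : S_CN1 k M := by
  classical
  haveI := (hDIS M hM.ne_zero).1
  letI : Fintype (AdjoinRoot M) := Fintype.ofFinite _
  obtain ⟨A, hA⟩ := hSTP
  set h := (HH M Y).card with hh
  have hcard : Nat.card (AdjoinRoot M)ˣ = h := by
    rw [CN1_natcard, CN1_units_card M Y hM hIRR]
  have hh1 : 1 ≤ h := hGRP.2.2.2.2
  refine ⟨(h * M.natDegree + h * A + A : ℕ), fun s hs u hu => ?_⟩
  rw [hcard]
  have hq : 1 ≤ (Fintype.card F : ℝ) := by
    exact_mod_cast Fintype.card_pos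
  have hqs : 1 ≤ (Fintype.card F : ℝ) ^ s := one_le_pow₀ hq
  have hup : ∀ v : AdjoinRoot M, IsUnit v → (h : ℝ) * NN M k (2 * s) v ≤
      (Fintype.card F : ℝ) ^ (2 * s) + A * (Fintype.card F : ℝ) ^ s := by
    intro v hv
    exact_mod_cast hA s hs v hv
  have hsum := CN1_sum (k := k) M hM (j := 2 * s) (by omega)
  have huU : u ∈ Finset.univ.filter (fun a : AdjoinRoot M => IsUnit a) :=
    Finset.mem_filter.2 ⟨Finset.mem_univ _, hu⟩
  rw [← Finset.add_sum_erase _ _ huU] at hsum
  have hsumR : (Fintype.card F : ℝ) ^ (2 * s) ≤ (NN M k (2 * s) u : ℝ) +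
      (∑ v ∈ (Finset.univ.filter (fun a : AdjoinRoot M => IsUnit a)).erase u,
        (NN M k (2 * s) v : ℝ)) + M.natDegree := by
    exact_mod_cast hsum
  have hrest : (h : ℝ) * (∑ v ∈ (Finset.univ.filter (fun a : AdjoinRoot M => IsUnit a)).erase u,
        (NN M k (2 * s) v : ℝ)) ≤
      ((h : ℝ) - 1) * ((Fintype.card F : ℝ) ^ (2 * s) + A * (Fintype.card F : ℝ) ^ s) := by
    rw [Finset.mul_sum]
    calc _ ≤ ∑ v ∈ (Finset.univ.filter (fun a : AdjoinRoot M => IsUnit a)).erase u,
          ((Fintype.card F : ℝ) ^ (2 * s) + A * (Fintype.card F : ℝ) ^ s) := by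
          apply Finset.sum_le_sum
          intro v hv
          exact hup v (Finset.mem_filter.1 (Finset.mem_of_mem_erase hv)).2
      _ = _ := by
          rw [Finset.sum_const, Finset.card_erase_of_mem huU, CN1_units_card M Y hM hIRR,
            nsmul_eq_mul, Nat.cast_sub hh1]
          push_cast
          rfl
  have hhR : (1 : ℝ) ≤ h := by exact_mod_cast hh1
  have hA0 : (0 : ℝ) ≤ A := Nat.cast_nonneg A
  have hm0 : (0 : ℝ) ≤ M.natDegree := Nat.cast_nonneg _
  rw [abs_le]
  push_cast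
  constructor
  · have h5 := mul_le_mul_of_nonneg_left hsumR (zero_le_one.trans hhR)
    have h6 : (h : ℝ) * M.natDegree ≤ h * M.natDegree * (Fintype.card F : ℝ) ^ s :=
      le_mul_of_one_le_right (mul_nonneg (zero_le_one.trans hhR) hm0) hqs
    have h7 : 0 ≤ (A : ℝ) * (Fintype.card F : ℝ) ^ s :=
      mul_nonneg hA0 (zero_le_one.trans hqs)
    nlinarith
  · have h5 := hup u hu
    have h6 : 0 ≤ ((h : ℝ) * M.natDegree + h * A) * (Fintype.card F : ℝ) ^ s := by
      positivity
    nlinarith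

end Pool.RN
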