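import Pool.Agent.H48.RN.Stmts1

/-!
PAR: Parseval for the characters modulo `M`.
-/

set_option autoImplicit false

namespace Pool.RN

open Polynomial

theorem PAR_orth0 {R : Type} [CommRing R] [Finite R] [Fintype (MulChar R ℂ)] {c : R}
    (hc : c ≠ 1) : ∑ ψ : MulChar R ℂ, ψ c = 0 := by
  obtain ⟨χ, hχ⟩ := MulChar.exists_apply_ne_one_of_hasEnoughRootsOfUnity R ℂ hc
  have h1 : ∑ ψ : MulChar R ℂ, (χ * ψ) c = ∑ ψ : MulChar R ℂ, ψ c :=
    Fintype.sum_bijective (fun ψ => χ * ψ) (Group.mulLeft_bijective χ) _ _ fun _ => rfl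
  simp only [MulChar.mul_apply] at h1
  rw [← Finset.mul_sum] at h1
  exact eq_zero_of_mul_eq_self_left hχ h1

open Classical in
theorem PAR_orth {R : Type} [CommRing R] [Finite R] [Fintype (MulChar R ℂ)] {b : R}
    (hb : IsUnit b) (a : R) : ∑ ψ : MulChar R ℂ, ψ a * star (ψ b)
      = if a = b then (Fintype.card (MulChar R ℂ) : ℂ) else 0 := by
  have h1 : ∀ ψ : MulChar R ℂ, ψ a * star (ψ b) = ψ (a * Ring.inverse b) := by
    intro ψ
    rw [MulChar.star_apply', MulChar.inv_apply, map_mul]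
  rw [Finset.sum_congr rfl fun ψ _ => h1 ψ]
  split_ifs with h
  · subst h
    rw [Ring.mul_inverse_cancel _ hb]
    simp
  · apply PAR_orth0
    intro h2
    apply h
    calc a = a * Ring.inverse b * b := by rw [mul_assoc, Ring.inverse_mul_cancel _ hb, mul_one]
      _ = b := by rw [h2, one_mul]

open Classical in
theorem PAR_pars {R : Type} [CommRing R] [Fintype R] [Fintype (MulChar R ℂ)] (S : R → ℂ) :
    ∑ ψ : MulChar R ℂ, ‖∑ a, ψ a * S a‖ ^ 2
      = (Fintype.card (MulChar R ℂ) : ℝ) * ∑ b ∈ Finset.univ.filter (fun b : R => IsUnit b),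
        ‖S b‖ ^ 2 := by
  have h0 : ∀ z : ℂ, (((‖z‖ ^ 2 : ℝ)) : ℂ) = z * star z := by
    intro z
    rw [RCLike.star_def, Complex.mul_conj']
    push_cast
    rfl
  have h1 : ((∑ ψ : MulChar R ℂ, ‖∑ a, ψ a * S a‖ ^ 2 : ℝ) : ℂ)
      = (((Fintype.card (MulChar R ℂ) : ℝ) * ∑ b ∈ Finset.univ.filter (fun b : R => IsUnit b),
        ‖S b‖ ^ 2 : ℝ) : ℂ) := by
    rw [Complex.ofReal_sum, Complex.ofReal_mul, Complex.ofReal_sum]
    simp only [h0]
    have h2 : ∀ ψ : MulChar R ℂ, (∑ a, ψ a * S a) * star (∑ a, ψ a * S a)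
        = ∑ b, ∑ a, (S a * star (S b)) * (ψ a * star (ψ b)) := by
      intro ψ
      rw [star_sum, Finset.sum_mul_sum, Finset.sum_comm]
      refine Finset.sum_congr rfl fun b _ => Finset.sum_congr rfl fun a _ => ?_
      rw [star_mul']
      ring
    rw [Finset.sum_congr rfl fun ψ _ => h2 ψ, Finset.sum_comm, Finset.mul_sum,
      Finset.sum_filter]
    refine Finset.sum_congr rfl fun b _ => ?_
    rw [Finset.sum_comm]
    have h3 : ∀ a, ∑ ψ : MulChar R ℂ, (S a * star (S b)) * (ψ a * star (ψ b))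
        = (S a * star (S b)) * ∑ ψ : MulChar R ℂ, (ψ a * star (ψ b)) := fun a => by
      rw [Finset.mul_sum]
    rw [Finset.sum_congr rfl fun a _ => h3 a]
    split_ifs with hb
    · rw [Finset.sum_congr rfl fun a _ => by rw [PAR_orth hb a]]
      rw [Finset.sum_eq_single b]
      · rw [if_pos rfl]
        push_cast
        ring
      · intro a _ hab
        rw [if_neg hab, mul_zero]
      · intro h
        exact absurd (Finset.mem_univ b) h
    · apply Finset.sum_eq_zero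
      intro a _
      rw [Finset.sum_eq_zero, mul_zero]
      intro ψ _
      rw [MulChar.map_nonunit ψ hb, star_zero, mul_zero]
  exact_mod_cast h1

theorem s_PAR (F : Type) [Field F] [Fintype F] (hDIS : S_DIS F) : S_PAR F := by
  classical
  intro M hM W N B hB T hT
  haveI := (hDIS M hM).1
  letI : Fintype (AdjoinRoot M) := Fintype.ofFinite _
  letI : Fintype (MulChar (AdjoinRoot M) ℂ) := Fintype.ofFinite _
  set S : AdjoinRoot M → ℂ := fun a =>
    ∑ f ∈ (Mon F N).filter (fun f => AdjoinRoot.mk M f = a), W f with hS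
  have h1 : ∀ ψ : MulChar (AdjoinRoot M) ℂ, ∑ f ∈ Mon F N, W f * dir ψ f = ∑ a, ψ a * S a := by
    intro ψ
    rw [← Finset.sum_fiberwise (Mon F N) (fun f => AdjoinRoot.mk M f)]
    refine Finset.sum_congr rfl fun a _ => ?_
    rw [hS, Finset.mul_sum]
    refine Finset.sum_congr rfl fun f hf => ?_
    rw [dir, (Finset.mem_filter.1 hf).2, mul_comm]
  have hB0 : 0 ≤ B := (norm_nonneg _).trans (hB 1)
  have h2 := PAR_pars S
  have h3 : ∑ ψ : MulChar (AdjoinRoot M) ℂ, ‖∑ a, ψ a * S a‖ ^ 2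
      ≤ (Fintype.card (MulChar (AdjoinRoot M) ℂ) : ℝ) * B ^ 2 := by
    have h4 : ∀ ψ ∈ (Finset.univ : Finset (MulChar (AdjoinRoot M) ℂ)),
        ‖∑ a, ψ a * S a‖ ^ 2 ≤ B ^ 2 := by
      intro ψ _
      rw [← h1]
      exact pow_le_pow_left₀ (norm_nonneg _) (hB ψ) 2
    calc _ ≤ ∑ ψ : MulChar (AdjoinRoot M) ℂ, B ^ 2 := Finset.sum_le_sum h4
      _ = _ := by rw [Finset.sum_const, Finset.card_univ, nsmul_eq_mul]
  rw [h2] at h3
  have hc : 0 < (Fintype.card (MulChar (AdjoinRoot M) ℂ) : ℝ) := by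
    exact_mod_cast Fintype.card_pos_iff.2 ⟨1⟩
  have h5 := le_of_mul_le_mul_left h3 hc
  refine le_trans ?_ h5
  apply Finset.sum_le_sum_of_subset_of_nonneg
  · intro a ha
    exact Finset.mem_filter.2 ⟨Finset.mem_univ _, hT a ha⟩
  · intro a _ _
    positivity

end Pool.RN
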